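import Pool.Agent.helper48.AGR.Spec

set_option autoImplicit false

namespace Pool.Agent.AGR

open Monoid Function

/-- EX. Every element is in `C` or has a reduced word. -/
theorem EX (hLET : LET_stmt) : EX_stmt := by
  intro L R C _ _ _ f g _ _ x
  obtain ⟨-, h2, h3, -, h5, h6, -⟩ := hLET L R C f g
  obtain ⟨S, hS⟩ : ∃ S : Am f g → Prop, S = fun x =>
    (∃ c, x = inl (f c)) ∨ ∃ (a b : Bool) (n : ℕ), Red f g a b n x := ⟨_, rfl⟩
  have hC : ∀ (c : C) (y : Am f g), S y → S (inl (f c) * y) := by
    intro c y hy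
    rw [hS] at hy ⊢
    rcases hy with ⟨c', rfl⟩ | ⟨a, b, n, hy⟩
    · exact Or.inl ⟨c * c', by rw [map_mul, map_mul]⟩
    · exact Or.inr ⟨a, b, n, (h3 a b n y c hy).2⟩
  have hA : ∀ (a : Bool) (s : Am f g), Red f g a a 1 s → ∀ y, S y → S (s * y) := by
    intro a s hs y hy
    rw [hS] at hy ⊢
    rcases hy with ⟨c', rfl⟩ | ⟨a', b, n, hy⟩
    · exact Or.inr ⟨a, a, 1, (h3 a a 1 s c' hs).1⟩
    · by_cases haa : a' = a
      · subst haa
        rcases Nat.lt_or_ge n 2 with hn | hn
        · have hn1 : n = 1 := by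
            have := (hLET L R C f g).1 a' b n y hy
            omega
          subst hn1
          have hab := (h2 a' b y hy).1
          subst hab
          rcases h6 a' s y hs hy with ⟨c, hc⟩ | h
          · exact Or.inl ⟨c, hc⟩
          · exact Or.inr ⟨a', a', 1, h⟩
        · obtain ⟨u, z, rfl, hu, hz⟩ := h5 a' b n y hy hn
          rw [← mul_assoc]
          rcases h6 a' s u hs hu with ⟨c, hc⟩ | h
          · rw [hc]
            exact Or.inr ⟨!a', b, n - 1, (h3 (!a') b (n - 1) z c hz).2⟩
          · exact Or.inr ⟨a', b, 1 + (n - 1), Red.app h hz⟩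
      · have ha' : a' = !a := by
          cases a <;> cases a' <;> simp_all
        subst ha'
        exact Or.inr ⟨a, b, 1 + n, Red.app hs hy⟩
  have key : ∀ y, S y → S (x * y) := by
    refine am_induction (motive := fun x => ∀ y, S y → S (x * y)) x ?_ ?_ ?_
    · intro l
      by_cases hl : l ∈ f.range
      · obtain ⟨c, rfl⟩ := hl
        exact hC c
      · exact hA false (inl l) (Red.l l hl)
    · intro r
      by_cases hr : r ∈ g.range
      · obtain ⟨c, rfl⟩ := hr
        rw [← glue c]
        exact hC c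
      · exact hA true (inr r) (Red.r r hr)
    · intro u v hu hv y hy
      rw [mul_assoc]
      exact hu _ (hv _ hy)
  have h1 : S (1 : Am f g) := by
    rw [hS]
    exact Or.inl ⟨1, by rw [map_one, map_one]⟩
  have := key 1 h1
  rw [mul_one, hS] at this
  exact this

end Pool.Agent.AGR
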